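import Pool.Agent.X34.CY.Stm

/-! CY_AN0: the term `n / |W|` (project CY of helper34, MP_6efeb4_pr). -/

set_option autoImplicit false

namespace Pool.Agent.X32.CY

open Finset

theorem step (k : ℕ) : Real.exp 1 * (k : ℝ) ^ (k + 1) ≤ ((k : ℝ) + 1) ^ (k + 1) := by
  have hk : (0 : ℝ) < (k : ℝ) + 1 := by positivity
  have h1 : (k : ℝ) / (k + 1) ≤ Real.exp (-(1 / ((k : ℝ) + 1))) := by
    have := Real.add_one_le_exp (-(1 / ((k : ℝ) + 1)))
    have e : (k : ℝ) / (k + 1) = -(1 / ((k : ℝ) + 1)) + 1 := by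
      field_simp
      ring
    rw [e]
    exact this
  have h2 : ((k : ℝ) / (k + 1)) ^ (k + 1) ≤ Real.exp (-1) := by
    calc ((k : ℝ) / (k + 1)) ^ (k + 1) ≤ (Real.exp (-(1 / ((k : ℝ) + 1)))) ^ (k + 1) :=
          pow_le_pow_left₀ (by positivity) h1 _
      _ = Real.exp (-1) := by
          rw [← Real.exp_nat_mul]
          congr 1
          push_cast
          field_simp
  rw [div_pow, div_le_iff₀ (by positivity), Real.exp_neg] at h2
  have he : 0 < Real.exp 1 := Real.exp_pos 1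
  calc Real.exp 1 * (k : ℝ) ^ (k + 1)
      ≤ Real.exp 1 * ((Real.exp 1)⁻¹ * ((k : ℝ) + 1) ^ (k + 1)) :=
        mul_le_mul_of_nonneg_left h2 he.le
    _ = ((k : ℝ) + 1) ^ (k + 1) := by
        rw [← mul_assoc, mul_inv_cancel₀ he.ne', one_mul]

theorem fac_le (k : ℕ) (hk : 1 ≤ k) :
    (k.factorial : ℝ) * Real.exp 1 ^ k ≤ Real.exp 1 * (k : ℝ) ^ (k + 1) := by
  induction k, hk using Nat.le_induction with
  | base => simp
  | succ k hk ih =>
    have he : 0 < Real.exp 1 := Real.exp_pos 1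
    have hs := step k
    calc (((k + 1).factorial : ℕ) : ℝ) * Real.exp 1 ^ (k + 1)
        = ((k : ℝ) + 1) * Real.exp 1 * ((k.factorial : ℝ) * Real.exp 1 ^ k) := by
          rw [Nat.factorial_succ]
          push_cast
          ring
      _ ≤ ((k : ℝ) + 1) * Real.exp 1 * (Real.exp 1 * (k : ℝ) ^ (k + 1)) := by gcongr
      _ ≤ ((k : ℝ) + 1) * Real.exp 1 * (((k : ℝ) + 1) ^ (k + 1)) := by gcongr
      _ = Real.exp 1 * ((k + 1 : ℕ) : ℝ) ^ (k + 1 + 1) := by
          push_cast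
          ring

open Pool.Agent.X34.CY in
theorem t_AN0 : S_AN0 := by
  intro ε lam hε hε1 hlam
  have he : 0 < Real.exp 1 := Real.exp_pos 1
  have he3 : Real.exp 1 < 3 := lt_trans Real.exp_one_lt_d9 (by norm_num)
  have hl0 : 0 < lam := by rcases hlam with h | h <;> rw [h] <;> norm_num
  have hl2 : lam ≤ 2 := by rcases hlam with h | h <;> rw [h] <;> norm_num
  refine ⟨max 1 ⌈8 * Real.exp 1 / ε⌉₊, fun k n R Wc hK hKn hR hW => ?_⟩
  have hk1 : 1 ≤ k := (le_max_left _ _).trans hK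
  have hkpos : (0 : ℝ) < k := by exact_mod_cast hk1
  set K := max 1 ⌈8 * Real.exp 1 / ε⌉₊ with hKdef
  have hK1 : (1 : ℝ) ≤ K := by exact_mod_cast le_max_left 1 ⌈8 * Real.exp 1 / ε⌉₊
  have hK2 : 8 * Real.exp 1 / ε ≤ K :=
    (Nat.le_ceil _).trans (by exact_mod_cast le_max_right 1 ⌈8 * Real.exp 1 / ε⌉₊)
  have hlog : 0 < Real.log n := lt_of_lt_of_le (by positivity) hKn
  have hn0 : (0 : ℝ) < n := by
    rcases Nat.eq_zero_or_pos n with h | h
    · rw [h] at hlog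
      simp at hlog
    · exact_mod_cast h
  set x : ℝ := (n : ℝ) ^ (1 / (k : ℝ)) with hx
  have hxn : x ^ k = n := by
    rw [hx, one_div]
    exact Real.rpow_inv_natCast_pow hn0.le (by omega)
  have hxK : 8 * Real.exp 1 / ε ≤ x := by
    have h1 : (K : ℝ) ≤ Real.log n * (1 / k) := by
      rw [mul_one_div, le_div_iff₀ hkpos]
      exact hKn
    have h2 : x = Real.exp (Real.log n * (1 / k)) := Real.rpow_def_of_pos hn0 _
    have h3 := Real.add_one_le_exp (Real.log n * (1 / k))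
    rw [← h2] at h3
    linarith
  have hx0 : 0 < x := lt_of_lt_of_le (by positivity) hxK
  have hxe : 8 * Real.exp 1 ≤ ε * x := by
    rw [div_le_iff₀ hε] at hxK
    linarith
  -- the main inequality
  have hmain : (k : ℝ) * ((1 + ε / 2) * x / Real.exp 1) ≤ lam * ((R : ℝ) - k) := by
    have h1 : lam * ((1 + ε) * (k * x / (lam * Real.exp 1))) ≤ lam * ((R : ℝ) + 1) :=
      mul_le_mul_of_nonneg_left hR hl0.le
    have h2 : lam * ((1 + ε) * (k * x / (lam * Real.exp 1))) =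
        (k : ℝ) * ((1 + ε / 2) * x / Real.exp 1) + (k : ℝ) * ((ε * x) / (2 * Real.exp 1)) := by
      field_simp
      ring
    have h3 : (4 : ℝ) ≤ (ε * x) / (2 * Real.exp 1) := by
      rw [le_div_iff₀ (by positivity)]
      linarith
    have h4 : (k : ℝ) * 4 ≤ (k : ℝ) * ((ε * x) / (2 * Real.exp 1)) :=
      mul_le_mul_of_nonneg_left h3 hkpos.le
    have h5 : lam * ((k : ℝ) + 1) ≤ 2 * ((k : ℝ) + 1) :=
      mul_le_mul_of_nonneg_right hl2 (by positivity)
    have h6 : (1 : ℝ) ≤ k := by exact_mod_cast hk1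
    nlinarith
  have hpos : 0 < (k : ℝ) * ((1 + ε / 2) * x / Real.exp 1) := by positivity
  have hpow : ((k : ℝ) * ((1 + ε / 2) * x / Real.exp 1)) ^ k ≤ k.factorial * Wc := by
    refine (pow_le_pow_left₀ hpos.le hmain k).trans ?_
    rw [mul_pow]
    exact hW
  have hfac : (0 : ℝ) < k.factorial := by exact_mod_cast Nat.factorial_pos k
  have hWc : 0 < Wc := by
    by_contra h
    have h1 : (k.factorial : ℝ) * Wc ≤ 0 := mul_nonpos_of_nonneg_of_nonpos hfac.le (not_lt.1 h)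
    have h2 : 0 < ((k : ℝ) * ((1 + ε / 2) * x / Real.exp 1)) ^ k := pow_pos hpos k
    linarith
  refine ⟨hWc, ?_⟩
  rw [div_le_div_iff₀ hWc (by positivity)]
  have h7 : ((k : ℝ) * ((1 + ε / 2) * x / Real.exp 1)) ^ k * Real.exp 1 ^ k =
      (k : ℝ) ^ k * ((n : ℝ) * (1 + ε / 2) ^ k) := by
    rw [mul_pow, div_pow, mul_pow, hxn]
    field_simp
  have h8 := fac_le k hk1
  have h9 : (k : ℝ) ^ k * ((n : ℝ) * (1 + ε / 2) ^ k) ≤ (k : ℝ) ^ k * (3 * k * Wc) := by
    rw [← h7]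
    calc ((k : ℝ) * ((1 + ε / 2) * x / Real.exp 1)) ^ k * Real.exp 1 ^ k
        ≤ (k.factorial * Wc) * Real.exp 1 ^ k := by gcongr
      _ = (k.factorial * Real.exp 1 ^ k) * Wc := by ring
      _ ≤ (Real.exp 1 * (k : ℝ) ^ (k + 1)) * Wc := by gcongr
      _ ≤ (3 * (k : ℝ) ^ (k + 1)) * Wc := by gcongr
      _ = (k : ℝ) ^ k * (3 * k * Wc) := by ring
  exact le_of_mul_le_mul_left h9 (by positivity)

end Pool.Agent.X32.CY
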